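import Pool.Agent.Q16.Wilf.Main

namespace Pool.Agent.Results.MP_811154_nt.WilfModular

open Pool.Agent.Q16.Wilf

/-- The modular numerical semigroup `S(a,b,1) = {x : a x mod b ≤ x}`. -/
def modular (a b : ℕ) (hb : 0 < b) : AddSubmonoid ℕ where
  carrier := {x | a * x % b ≤ x}
  zero_mem' := by simp
  add_mem' := by
    intro x y hx hy
    simp only [Set.mem_setOf_eq] at hx hy ⊢
    have h1 := Nat.add_mod (a * x) (a * y) b
    rw [← mul_add] at h1
    have h2 := Nat.mod_le (a * x % b + a * y % b) b
    have := hb
    omega

/-- `G` is a minimal generating set of the monoid `S`. -/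
def IsMinGen (S : AddSubmonoid ℕ) (G : Set ℕ) : Prop :=
  AddSubmonoid.closure G = S ∧ ∀ H : Set ℕ, H ⊂ G → AddSubmonoid.closure H ≠ S

/-- The complement of `S` in `ℤ`. -/
def gapsZ (S : AddSubmonoid ℕ) : Set ℤ := {z | ∀ x ∈ S, (x : ℤ) ≠ z}

/-- Wilf's inequality holds for every modular numerical semigroup. -/
theorem result (a b : ℕ) (_ha : 0 < a) (hb : 0 < b) :
    ∃ (G : Set ℕ) (F : ℤ),
      G.Finite ∧ IsMinGen (modular a b hb) G ∧ (∀ H, IsMinGen (modular a b hb) H → H = G) ∧
      ((modular a b hb : Set ℕ)ᶜ).Finite ∧
      IsGreatest (gapsZ (modular a b hb)) F ∧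
      (G.ncard : ℤ) * (((modular a b hb : Set ℕ)ᶜ).ncard : ℤ) ≤ ((G.ncard : ℤ) - 1) * (F + 1) := by
  classical
  set S := modular a b hb with hSdef
  have hS : ∀ x, x ∈ S ↔ a * x % b ≤ x := fun x => Iff.rfl
  have hfin : (atoms S).Finite := by
    apply (Set.finite_Iio (2 * b)).subset
    intro x hx
    rw [Set.mem_Iio]
    by_contra hcon
    exact hx.2.2 b (mem_of_ge a b hb S hS b le_rfl) (x - b)
      (mem_of_ge a b hb S hS _ (by omega)) (by omega) (by omega) (by omega)
  have hcofin : ((S : Set ℕ)ᶜ).Finite := by
    apply (Set.finite_Iio b).subset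
    intro x hx
    rw [Set.mem_Iio]
    by_contra hcon
    exact hx (mem_of_ge a b hb S hS x (by omega))
  have hmingen : IsMinGen S (atoms S) := by
    refine ⟨closure_atoms S, ?_⟩
    intro H hH hcl
    exact hH.2 (atoms_subset S H hcl)
  have hA : ((hfin.toFinset : Finset ℕ) : Set ℕ) = atoms S := hfin.coe_toFinset
  have hAcard : (atoms S).ncard = hfin.toFinset.card := Set.ncard_eq_toFinset_card _ hfin
  have hG : ∀ x, x ∈ hcofin.toFinset ↔ x ∉ S := by
    intro x
    rw [Set.Finite.mem_toFinset]
    rfl
  have hGcard : ((S : Set ℕ)ᶜ).ncard = hcofin.toFinset.card := Set.ncard_eq_toFinset_card _ hcofin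
  by_cases hne : (hcofin.toFinset).Nonempty
  · set F := hcofin.toFinset.max' hne with hFdef
    have hF : F ∉ S := (hG F).1 (Finset.max'_mem _ hne)
    have hF' : ∀ x, F < x → x ∈ S := by
      intro x hx
      by_contra hcon
      have := Finset.le_max' _ x ((hG x).2 hcon)
      omega
    have hmain := wilf_main a b hb S hS hfin.toFinset hA hcofin.toFinset hG F hF hF'
    refine ⟨atoms S, (F : ℤ), hfin, hmingen, fun H hH => eq_atoms S H hH.1 hH.2, hcofin, ?_, ?_⟩
    · constructor
      · intro x hx hxF
        have : x = F := by exact_mod_cast hxF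
        rw [this] at hx
        exact hF hx
      · intro z hz
        by_contra hcon
        push Not at hcon
        have h0 : 0 ≤ z := by
          have : (0:ℤ) ≤ F := by positivity
          omega
        apply hz z.toNat (hF' _ (by omega))
        exact Int.toNat_of_nonneg h0
    · rw [hAcard, hGcard]
      have hpos : 1 ≤ hfin.toFinset.card := by
        rw [Nat.one_le_iff_ne_zero]
        intro h0
        rw [Finset.card_eq_zero] at h0
        rw [h0] at hA
        have hcl := closure_atoms S
        rw [← hA] at hcl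
        have hb' := mem_of_ge a b hb S hS b le_rfl
        rw [← hcl] at hb'
        simp at hb'
        omega
      zify [hpos] at hmain
      exact hmain
  · rw [Finset.not_nonempty_iff_eq_empty] at hne
    have hall : ∀ x, x ∈ S := by
      intro x
      by_contra hcon
      have := (hG x).2 hcon
      rw [hne] at this
      simp at this
    refine ⟨atoms S, -1, hfin, hmingen, fun H hH => eq_atoms S H hH.1 hH.2, hcofin, ?_, ?_⟩
    · constructor
      · intro x hx hxF
        omega
      · intro z hz
        by_contra hcon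
        push Not at hcon
        exact hz z.toNat (hall _) (Int.toNat_of_nonneg (by omega))
    · rw [hGcard, hne]
      simp

end Pool.Agent.Results.MP_811154_nt.WilfModular
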